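import Pool.Agent.E8helper39.WW.Stm

set_option autoImplicit false

open Module Submodule

namespace WW39

theorem t_T (h1 : S_START) (h2 : S_STEP) (h3 : S_NC1) : S_T := by
  intro V _ _ _ E hfin hspan hne hsimp hNS hE
  classical
  obtain ⟨e₀, he₀⟩ := hE
  obtain ⟨p, h, q, hSP⟩ := h1 V E hfin hspan ⟨e₀, he₀, hne e₀ he₀⟩
  -- least rank
  have key : ∀ n : ℕ, ∀ (p : V) (h : Dual ℝ V) (q : V), SP E p h q →
      finrank ℝ (span ℝ (NC (E ∩ {e | h e = 0}))) = n →
      ∃ (p' : V) (h' : Dual ℝ V) (q' : V), SP E p' h' q' ∧ ¬ (NC (E ∩ {e | h' e = 0})).Nonempty := by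
    intro n
    induction n using Nat.strong_induction_on with
    | _ n ih =>
      intro p h q hSP hn
      by_cases hN : (NC (E ∩ {e | h e = 0})).Nonempty
      · obtain ⟨p', h', q', hSP', hlt⟩ := h2 V E hfin hspan hne hsimp hNS p h q hSP hN
        exact ih _ (hn ▸ hlt) p' h' q' hSP' rfl
      · exact ⟨p, h, q, hSP, hN⟩
  obtain ⟨p', f, q', hSP', hN⟩ := key _ p h q hSP rfl
  rw [Set.not_nonempty_iff_eq_empty] at hN
  refine ⟨f, hSP'.cut.1, ?_, ?_⟩
  · have h := (h3 V (E ∩ {e | f e = 0}) (hfin.subset Set.inter_subset_left)).2.1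
    rw [hN, Set.sdiff_empty] at h
    exact h
  · intro x hx
    exact hSP'.cut.2 x (by rw [hspan]; trivial) hx

end WW39
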